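import Pool.Agent.Lib.MP_613bd6_al.Main

namespace Pool.Agent.Results.MP_613bd6_al.Central

open Pool.Agent.Lib.MP_613bd6_al

/-- For every `N ≥ 1` and all positive `μ_1, …, μ_{N+1}`, the element `X^μ_N` commutes with every
element `h` of `H^μ(S_n) = e_μ H(S_n) e_μ`. -/
theorem result : ∀ (N : ℕ), 1 ≤ N → ∀ (μ : Fin (N + 1) → ℕ), (∀ j, 0 < μ j) →
    ∀ h : Hecke (∑ j, μ j), (∃ g : Hecke (∑ j, μ j), h = e μ * g * e μ) →
      X μ * h = h * X μ := by
  rintro N _ μ hμ h ⟨g, rfl⟩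
  exact X_central hμ g

end Pool.Agent.Results.MP_613bd6_al.Central
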